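import Pool.Agent.J4.H58.STC.Lin

/-!
# MP_c481b3_nt: linear relations between the Sato-Tate discrepancies over different number fields

`K` is a number field, `Γ = Gal(K̄/K)` with its Haar probability measure `m`, and `ρ` is a symplectic
representation of `Γ` which is unramified outside a finite set, for instance the representation on
`V_ℓ(A)` for an abelian variety `A` over `K`. Nothing is assumed about the Sato-Tate conjecture.

For every finite family of finite extensions `E_i` of `K`, all real numbers `c_i` and all class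
functions `f`, the combination `∑ c_i disc_i(f)` of the discrepancies over the fields `E_i` is in the
limit at most `2 sup |f|` times the `L¹` norm of the combination `∑ c_i emb (E_i)` of the permutation
characters of the `E_i`. So every linear relation between the permutation characters (a Brauer relation)
gives the same relation between the discrepancies, up to `o(1)`. For instance, the discrepancies over
arithmetically equivalent fields are asymptotically equal, and for a Galois extension of `K` with group
`C_p × C_p` the discrepancy over it is asymptotically the sum of the discrepancies over its `p + 1`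
subfields of degree `p`, minus `p` times the one over `K`.
-/

set_option autoImplicit false

namespace Pool.Agent.Results.MP_c481b3_nt.BrauerRelations

open Pool.Agent.K4H40.ST Pool.Agent.K4H53.SI Pool.Agent.J4.H58.STC
open NumberField IsDedekindDomain Filter Topology MeasureTheory

theorem result {K : Type} [Field K] [NumberField K] {g : ℕ} {R : Type} [CommRing R]
    (ρ : Gal(AlgebraicClosure K/K) →* GL (Fin g ⊕ Fin g) R) (ι : R →+* ℂ)
    (hsymp : IsSymplectic ρ) (hunr : IsUnramified K (AlgebraicClosure K) ρ)
    (I : Type) [Fintype I] (E : I → IntermediateField K (AlgebraicClosure K))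
    [∀ i, NumberField (E i)]
    (C : Subgroup (GL (Fin g ⊕ Fin g) ℂ)) (hC : IsSatoTateGroup (extend ρ ι) C)
    (x : HeightOneSpectrum (𝓞 K) → C)
    (hx : IsClassSystem K (AlgebraicClosure K) (extend ρ ι) C x) :
    ∃ (D : I → Subgroup (GL (Fin g ⊕ Fin g) ℂ)) (hD : ∀ i, D i ≤ C)
      (y : ∀ i, HeightOneSpectrum (𝓞 (E i)) → D i),
      (∀ i, IsSatoTateGroup (repOver ρ ι (E i)) (D i) ∧
        IsClassSystem (E i) (AlgebraicClosure K) (repOver ρ ι (E i)) (D i) (y i)) ∧
      ∀ [∀ i, MeasurableSpace (D i)] [∀ i, BorelSpace (D i)] (ν : ∀ i, Measure (D i))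
        [∀ i, IsProbabilityMeasure (ν i)] [∀ i, (ν i).IsMulLeftInvariant]
        (f : C → ℂ), Continuous f → (∀ c h, f (h * c * h⁻¹) = f c) → ∀ c : I → ℝ,
      -- (1) the inequality
      (∀ [MeasurableSpace Gal(AlgebraicClosure K/K)] [BorelSpace Gal(AlgebraicClosure K/K)]
        (m : Measure Gal(AlgebraicClosure K/K)) [IsProbabilityMeasure m] [m.IsMulLeftInvariant]
        (B : ℝ), (∀ c, ‖f c‖ ≤ B) → ∀ ε : ℝ, 0 < ε →
        ∀ᶠ N in atTop,
          ‖∑ i, (c i : ℂ) *
            disc (E i) (ν i) (y i) (fun d => f (Subgroup.inclusion (hD i) d)) N‖ ≤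
          2 * B * (∫ σ, |∑ i, c i * (emb (E i) σ : ℝ)| ∂m) + ε) ∧
      -- (2) Brauer relations
      ((∀ σ, ∑ i, c i * (emb (E i) σ : ℝ) = 0) →
        Tendsto (fun N => ∑ i, (c i : ℂ) *
          disc (E i) (ν i) (y i) (fun d => f (Subgroup.inclusion (hD i) d)) N) atTop (𝓝 0)) := by
  obtain ⟨D, hD, y, h1, h2⟩ := lin_level (extend ρ ι) (unr_extend ρ ι hunr)
    (Final.isSim_of ρ ι hsymp) E C hC x hx
  refine ⟨D, hD, y, h1, ?_⟩
  intro _ _ ν _ _ f hf hcl c
  refine ⟨fun m _ _ B hB ε hε => h2 m ν f hf hcl B hB c ε hε, fun hc => ?_⟩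
  have : CompactSpace C := isCompact_iff_compactSpace.mp hC.compact
  obtain ⟨B, hB'⟩ := isCompact_univ.exists_bound_of_continuousOn hf.continuousOn
  have hB : ∀ c, ‖f c‖ ≤ B := fun c => hB' c trivial
  letI : MeasurableSpace Gal(AlgebraicClosure K/K) := borel _
  have : BorelSpace Gal(AlgebraicClosure K/K) := ⟨rfl⟩
  let m : Measure Gal(AlgebraicClosure K/K) := Measure.haarMeasure ⊤
  have : IsProbabilityMeasure m := ⟨Measure.haarMeasure_self⟩
  have : m.IsMulLeftInvariant := inferInstanceAs (Measure.haarMeasure _).IsMulLeftInvariant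
  rw [Metric.tendsto_nhds]
  intro ε hε
  filter_upwards [h2 m ν f hf hcl B hB c (ε / 2) (by positivity)] with N hN
  have h3 : ∫ σ, |∑ i, c i * (emb (E i) σ : ℝ)| ∂m = 0 := by
    have h4 : (fun σ => |∑ i, c i * (emb (E i) σ : ℝ)|) = fun _ => (0 : ℝ) := by
      funext σ
      rw [hc σ, abs_zero]
    rw [h4, integral_zero]
  rw [h3, mul_zero, zero_add] at hN
  rw [dist_zero_right]
  exact hN.trans_lt (by linarith)

end Pool.Agent.Results.MP_c481b3_nt.BrauerRelations
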