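import Pool.Agent.J4.H58.STC.Rank

/-!
# MP_c481b3_nt: the Sato-Tate conjecture and combinations of permutation characters of fields

`K` is a number field, `Γ = Gal(K̄/K)` with its Haar probability measure `m`, and `ρ` is a symplectic
representation of `Γ` which is unramified outside a finite set, for instance the representation on
`V_ℓ(A)` for an abelian variety `A` over `K`. The Sato-Tate conjecture is assumed for `ρ` over some
finite extensions `E_i` of `K`, but not over larger fields.

(1) The discrepancy of a class function `f` over `K` is in the limit at most `2 sup |f|` times the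
distance in `L¹(Γ)` of `1` from every real combination of the permutation characters `emb (E i)`.

(2) It is at most `2 sup |f|` times the square root of `∑ c_i c_j comps (E i) (E j) - 1`, if the sum of
the `c_i` is `1`, where `comps (E i) (E j)` is the number of composita of `E_i` and `E_j`, that is, the
number of fields in the decomposition of `E_i ⊗ E_j`.

(3) If the `E_i` are linearly disjoint in pairs, and the sum of the inverses of
`comps (E i) (E i) - 1` diverges, then the Sato-Tate conjecture holds over `K`. Here
`comps (E i) (E i) ≤ [E_i:K]`, but it is `2` for every `E_i` of degree greater than one whose Galois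
group is doubly transitive, so there is no condition on the degrees for such fields.
-/

set_option autoImplicit false

namespace Pool.Agent.Results.MP_c481b3_nt.SecondMomentCriterion

open Pool.Agent.K4H40.ST Pool.Agent.K4H53.SI Pool.Agent.J4.H58.STC
open NumberField IsDedekindDomain Filter Topology MeasureTheory

theorem result {K : Type} [Field K] [NumberField K] {g : ℕ} {R : Type} [CommRing R]
    (ρ : Gal(AlgebraicClosure K/K) →* GL (Fin g ⊕ Fin g) R) (ι : R →+* ℂ)
    (hsymp : IsSymplectic ρ) (hunr : IsUnramified K (AlgebraicClosure K) ρ) :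
    (∀ (I : Type) [Fintype I] (E : I → IntermediateField K (AlgebraicClosure K)),
      (∀ i, Holds ρ ι (E i)) → ∀ c : I → ℝ,
      ∀ C : Subgroup (GL (Fin g ⊕ Fin g) ℂ), IsSatoTateGroup (extend ρ ι) C →
      ∀ x : HeightOneSpectrum (𝓞 K) → C,
        IsClassSystem K (AlgebraicClosure K) (extend ρ ι) C x →
      ∀ [MeasurableSpace C] [BorelSpace C] (μ : Measure C) [IsProbabilityMeasure μ]
        [μ.IsMulLeftInvariant]
        (f : C → ℂ), Continuous f → (∀ c h, f (h * c * h⁻¹) = f c) →
      ∀ B : ℝ, (∀ c, ‖f c‖ ≤ B) →
      -- (1) the `L¹` bound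
      (∀ [MeasurableSpace Gal(AlgebraicClosure K/K)] [BorelSpace Gal(AlgebraicClosure K/K)]
        (m : Measure Gal(AlgebraicClosure K/K)) [IsProbabilityMeasure m] [m.IsMulLeftInvariant],
        ∀ ε : ℝ, 0 < ε → ∀ᶠ N in atTop, ‖disc K μ x f N‖ ≤
          2 * B * (∫ σ, |∑ i, c i * (emb (E i) σ : ℝ) - 1| ∂m) + ε) ∧
      -- (2) the second moment bound
      (∑ i, c i = 1 → ∀ ε : ℝ, 0 < ε → ∀ᶠ N in atTop, ‖disc K μ x f N‖ ≤
        2 * B * Real.sqrt (∑ i, ∑ j, c i * c j * (comps (E i) (E j) : ℝ) - 1) + ε)) ∧
    -- (3) the criterion for fields which are linearly disjoint in pairs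
    (∀ (I : Type) (E : I → IntermediateField K (AlgebraicClosure K)),
      (∀ i, Holds ρ ι (E i)) →
      (∀ i j, i ≠ j → Module.finrank K (E i ⊔ E j : IntermediateField K (AlgebraicClosure K)) =
        Module.finrank K (E i) * Module.finrank K (E j)) →
      (¬ Summable fun i => ((comps (E i) (E i) : ℝ) - 1)⁻¹) →
      SatoTate K (AlgebraicClosure K) (extend ρ ι)) := by
  refine ⟨?_, fun I E hE hdis hsum => rank_criterion ρ ι hsymp hunr E hE hdis hsum⟩
  intro I _ E hE c C hC x hx _ _ μ _ _ f hf hcl B hB
  refine ⟨?_, ?_⟩
  · intro _ _ m _ _ ε hε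
    exact l1_bound ρ ι hsymp hunr m Finset.univ E (fun i _ => hE i) c C hC x hx μ f hf hcl B hB ε hε
  · intro hc ε hε
    exact l2_bound ρ ι hsymp hunr Finset.univ E (fun i _ => hE i) c hc C hC x hx μ f hf hcl B hB ε hε

end Pool.Agent.Results.MP_c481b3_nt.SecondMomentCriterion
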